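import Pool.Agent.H49.KI.Final

/-!
# The Kobayashi pseudodistance of complete Kähler manifolds of nonnegative curvature, positive at infinity

Let `X` be a connected noncompact complex manifold of dimension `n` with a complete Kähler metric `G` whose Riemannian
sectional curvature is nonnegative everywhere and positive outside a compact set. Then the Kobayashi pseudodistance of `X`
vanishes identically.

`X` is an abstract complex manifold; no embedding and no Stein property are used.

Idea of the proof. Fix `p ∈ X`. Let `f` be a continuous map of the closed unit disc into `X`, holomorphic inside, with
`f(0) = p`. It has a holomorphic thickening `Φ(z, y)`, `Φ(z, 0) = f(z)` (Cartan's lemma and gluing). The bisectional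
curvature is nonnegative, so there is a holomorphic section `η` of `f^*TX` with `η(0) = f'(0)` and `|η| ≤ |f'(0)| + ε` on the
circle. Moving `f` in the direction `z η(z)` multiplies `f'(0)` by `1 + δ` and moves the circle by at most
`δ (|f'(0)| + ε)`. The disc stays in a fixed ball: by the curvature assumption `-dist(·, q)` is strictly plurisubharmonic
on large balls if `q` is far away, and points outside a large ball can be separated from a given ball by such functions
(limits of geodesics). An ordering argument gives discs with `f(0) = p`, `f'(0) = λ v` for all `λ > 0`.
-/

set_option autoImplicit false

namespace Pool.Agent.Results.MP_110de3_gt.KobayashiIntrinsic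

open KI Manifold ContDiff
open KB (V)

/-- Let `X` be a connected noncompact complex manifold of dimension `n` with a complete Kähler metric `G` whose sectional
curvature is nonnegative everywhere and positive outside a compact set `K`. Then the Kobayashi pseudodistance of `X` is
identically zero. -/
theorem result {n : ℕ} (X : Type) [TopologicalSpace X] [T2Space X] [ConnectedSpace X]
    [NoncompactSpace X] [ChartedSpace (V n) X] [IsManifold 𝓘(ℂ, V n) ω X]
    (G : OpenPartialHomeomorph X (V n) → V n → V n → V n → ℂ) (hG : IsHermMetric G)
    (hK : Kaehler G) (hc : Complete G) (hS : SecNonneg G)
    (hP : ∃ K : Set X, IsCompact K ∧ SecPosOn G Kᶜ) :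
    ∀ p q : X, kobayashi n X p q = 0 :=
  KI.main X G hG hK hc hS hP

end Pool.Agent.Results.MP_110de3_gt.KobayashiIntrinsic
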