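import Pool.Agent.H49.KB.Final

/-!
# The Kobayashi pseudodistance of complete manifolds of nonnegative curvature vanishes

Let `M` be a connected closed subset of `ℂ^N` which is a holomorphic retract of an open neighbourhood `U` (a Stein
manifold; every Stein manifold is of this form) and let `g` be a complete Kähler metric of class `C²` on `M` with
nonnegative sectional curvature, or more generally a complete Hermitian metric whose Chern curvature is Griffiths
semipositive. Then the Kobayashi pseudodistance of `M` vanishes identically.

Idea of the proof. Let `f` be a holomorphic map of the closed unit disc into `M` with `f(0) = p`. Because `TM` is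
semipositive, there is a holomorphic section `η` of `f^*TM` with `η(0) = f'(0)` and `|η| ≤ |f'(0)| + ε` on the boundary
circle. Moving `f` in the direction `z η(z)` multiplies `f'(0)` by `1 + δ` and moves the boundary circle by at most
`δ (|f'(0)| + ε)`. Hence there are holomorphic discs with `f(0) = p`, `f'(0) = λ v` whose boundary circle lies in the ball
of radius `λ |v| + ε` about `p`, for every `λ > 0`.
-/

set_option autoImplicit false

namespace Pool.Agent.Results.MP_110de3_gt.KobayashiVanishes

open KB

/-- Let `M` be a connected closed holomorphic neighbourhood retract in `ℂ^N`, with a complete Hermitian metric `g` of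
class `C²` which is Kähler with nonnegative Riemannian sectional curvature, or which has Griffiths semipositive Chern
curvature. Then the Kobayashi pseudodistance of `M` is identically zero. -/
theorem result {N : ℕ} (U M : Set (V N)) (r : V N → V N) (g : V N → V N → V N → ℂ)
    (hM : IsRetract U M r) (hg : IsHermMetric U M r g) (hc : Complete M g)
    (hcurv : (Kaehler U r g ∧ SecNonneg M r g) ∨ Griffiths M r g) :
    ∀ p ∈ M, ∀ q ∈ M, kobayashi M p q = 0 := by
  rcases hcurv with ⟨hK, hS⟩ | hG
  · exact main_sec hM hg hc hK hS
  · exact main_griffiths hM hg hc hG

end Pool.Agent.Results.MP_110de3_gt.KobayashiVanishes
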